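import Pool.Agent.helper70.KU.Defs

/-!
# Module EXP: expansions of `E`
-/

set_option autoImplicit false

namespace C048

open Finset

/-- the terms of the expansion are nonnegative and two of them give a lower bound -/
theorem h63_fE_series (y φ : ℝ) (hy : 0 < y) :
    Real.exp (-y) * (1 - Real.cos φ) + Real.exp (-(2 * y)) * (1 - Real.cos (2 * φ)) / 2 ≤
      Real.log (1 + Real.sin (φ / 2) ^ 2 / Real.sinh (y / 2) ^ 2) / 2 := by
  set r : ℝ := Real.exp (-y) with hr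
  have hr0 : 0 < r := Real.exp_pos _
  have hr1 : r < 1 := by
    rw [hr, Real.exp_lt_one_iff]
    linarith
  set z : ℂ := Complex.exp (-(y : ℂ) + φ * Complex.I) with hz
  have hzn : ‖z‖ = r := by
    rw [hz, Complex.norm_exp]
    simp [hr]
  have hz1 : ‖z‖ < 1 := by rw [hzn]; exact hr1
  have h1 := (Complex.hasSum_taylorSeries_neg_log hz1)
  have h1' := Complex.hasSum_re h1
  have h2 : HasSum (fun k : ℕ => r ^ k / k) (-Real.log (1 - r)) := by
    have h3 := Real.hasSum_pow_div_log_of_abs_lt_one (x := r) (by rw [abs_of_pos hr0]; exact hr1)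
    rw [← hasSum_nat_add_iff' 1]
    simpa using h3
  have h4 := h2.sub h1'
  have hzk : ∀ k : ℕ, (z ^ k / (k : ℂ)).re = r ^ k * Real.cos (k * φ) / k := by
    intro k
    have e1 : z ^ k = Complex.exp (((-(k * y) : ℝ) : ℂ) + ((k * φ : ℝ) : ℂ) * Complex.I) := by
      rw [hz, ← Complex.exp_nat_mul]
      congr 1
      push_cast
      ring
    have e2 : r ^ k = Real.exp (-(k * y)) := by
      rw [hr, ← Real.exp_nat_mul]
      congr 1
      ring
    have e3 : (z ^ k).re = r ^ k * Real.cos (k * φ) := by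
      rw [e1, Complex.exp_re, e2]
      simp
    have e4 : (z ^ k / (k : ℂ)).re = (z ^ k).re / k := by
      have : (z ^ k / (k : ℂ)) = z ^ k / ((k : ℝ) : ℂ) := by norm_cast
      rw [this, Complex.div_ofReal_re]
    rw [e4, e3]
  simp only [hzk] at h4
  have hnn : ∀ k : ℕ, 0 ≤ r ^ k / k - r ^ k * Real.cos (k * φ) / k := by
    intro k
    have : r ^ k / k - r ^ k * Real.cos (k * φ) / k = r ^ k * (1 - Real.cos (k * φ)) / k := by ring
    rw [this]
    have := Real.cos_le_one (k * φ)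
    have h5 : 0 ≤ r ^ k := by positivity
    have h6 : 0 ≤ 1 - Real.cos (k * φ) := by linarith
    positivity
  have h5 := sum_le_hasSum (Finset.range 3) (fun k _ => hnn k) h4
  have h6 : ∑ k ∈ Finset.range 3, (r ^ k / k - r ^ k * Real.cos (k * φ) / k) =
      Real.exp (-y) * (1 - Real.cos φ) + Real.exp (-(2 * y)) * (1 - Real.cos (2 * φ)) / 2 := by
    have e2 : Real.exp (-(2 * y)) = r ^ 2 := by
      rw [hr, ← Real.exp_nat_mul]
      congr 1
      push_cast
      ring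
    rw [Finset.sum_range_succ, Finset.sum_range_succ, Finset.sum_range_one, e2]
    push_cast
    simp
    ring
  rw [h6] at h5
  refine h5.trans (le_of_eq ?_)
  -- the value
  have hre : (-Complex.log (1 - z)).re = - Real.log ‖1 - z‖ := by
    rw [Complex.neg_re, Complex.log_re]
  rw [hre]
  have hzre : z.re = r * Real.cos φ := by
    have := hzk 1
    simpa using this
  have hzim : z.im = r * Real.sin φ := by
    rw [hz, Complex.exp_im]
    simp [hr]
  have hnorm : ‖1 - z‖ ^ 2 = (1 - r) ^ 2 + 4 * r * Real.sin (φ / 2) ^ 2 := by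
    rw [← Complex.normSq_eq_norm_sq, Complex.normSq_apply]
    simp only [Complex.sub_re, Complex.one_re, Complex.sub_im, Complex.one_im, hzre, hzim]
    have hs : Real.sin (φ / 2) ^ 2 = (1 - Real.cos φ) / 2 := by
      have := Real.cos_sq (φ / 2)
      have h7 := Real.sin_sq_add_cos_sq (φ / 2)
      have h8 : 2 * (φ / 2) = φ := by ring
      rw [h8] at this
      linarith
    have h9 := Real.sin_sq_add_cos_sq φ
    rw [hs]
    nlinarith [h9]
  have hr1' : 0 < 1 - r := by linarith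
  have hsinh : Real.sinh (y / 2) ^ 2 = (1 - r) ^ 2 / (4 * r) := by
    rw [Real.sinh_eq]
    have e1 : Real.exp (y / 2) * Real.exp (y / 2) = r⁻¹ := by
      rw [← Real.exp_add, hr, Real.exp_neg, inv_inv]
      congr 1
      ring
    have e2 : Real.exp (-(y / 2)) * Real.exp (-(y / 2)) = r := by
      rw [← Real.exp_add, hr]
      congr 1
      ring
    have e3 : Real.exp (y / 2) * Real.exp (-(y / 2)) = 1 := by
      rw [← Real.exp_add]
      simp
    have : ((Real.exp (y / 2) - Real.exp (-(y / 2))) / 2) ^ 2 = (r⁻¹ - 2 + r) / 4 := by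
      nlinarith [e1, e2, e3]
    rw [this]
    field_simp
    ring
  have hpos : 0 < ‖1 - z‖ := by
    rw [norm_pos_iff]
    intro h
    have : z = 1 := by linear_combination -h
    rw [this] at hz1
    simp at hz1
  have hval : 1 + Real.sin (φ / 2) ^ 2 / Real.sinh (y / 2) ^ 2 = ‖1 - z‖ ^ 2 / (1 - r) ^ 2 := by
    rw [hsinh, hnorm]
    field_simp
  rw [hval, Real.log_div (by positivity) (by positivity), Real.log_pow, Real.log_pow]
  push_cast
  ring

theorem h63_fE_low {τ : ℝ} (hτ : 0 < τ) (θ : ℝ) {i : ℕ} (hi : 1 ≤ i) :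
    Real.exp (-(i * τ)) * (1 - Real.cos (i * θ)) +
      Real.exp (-(i * (2 * τ))) * (1 - Real.cos (i * (2 * θ))) / 2 ≤ fE τ θ i := by
  have hi' : (0 : ℝ) < i := by exact_mod_cast hi
  have := h63_fE_series (i * τ) (i * θ) (by positivity)
  unfold fE
  have e1 : (2 : ℝ) * (i * τ) = i * (2 * τ) := by ring
  have e2 : (2 : ℝ) * (i * θ) = i * (2 * θ) := by ring
  rw [e1, e2] at this
  exact this

theorem h63_fE_up {τ : ℝ} (hτ : 0 < τ) (θ : ℝ) {i : ℕ} (hi : 1 ≤ i) : fE τ θ i ≤ Lf (i * τ) := by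
  have hi' : (0 : ℝ) < i := by exact_mod_cast hi
  unfold fE Lf
  have h1 : 0 < Real.sinh (i * τ / 2) := Real.sinh_pos_iff.2 (by positivity)
  have h2 : Real.sin (i * θ / 2) ^ 2 ≤ 1 := Real.sin_sq_le_one _
  have h3 : Real.sin (i * θ / 2) ^ 2 / Real.sinh (i * τ / 2) ^ 2 ≤
      1 / Real.sinh (i * τ / 2) ^ 2 := div_le_div_of_nonneg_right h2 (by positivity)
  have h4 : 0 ≤ Real.sin (i * θ / 2) ^ 2 / Real.sinh (i * τ / 2) ^ 2 := by positivity
  have := Real.log_le_log (by linarith : 0 < 1 + Real.sin (i * θ / 2) ^ 2 /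
    Real.sinh (i * τ / 2) ^ 2) (by linarith : 1 + Real.sin (i * θ / 2) ^ 2 /
    Real.sinh (i * τ / 2) ^ 2 ≤ 1 + 1 / Real.sinh (i * τ / 2) ^ 2)
  linarith

theorem S1_nonneg (n : ℕ) (τ θ : ℝ) : 0 ≤ S1 n τ θ := by
  have h : ∀ i : ℕ, 0 ≤ Real.exp (-(i * τ)) * (1 - Real.cos (i * θ)) := by
    intro i
    have := Real.cos_le_one (i * θ)
    exact mul_nonneg (Real.exp_pos _).le (by linarith)
  unfold S1
  have h1 := Finset.sum_nonneg (fun i (_ : i ∈ Icc 1 n) => h i)
  have h2 := Finset.sum_nonneg (fun i (_ : i ∈ Ioc n (2 * n)) => h i)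
  linarith

/-- EXP2 -/
theorem EXP2 (n : ℕ) {τ : ℝ} (hτ : 0 < τ) (θ : ℝ) :
    S1 n τ θ + S1 n (2 * τ) (2 * θ) / 2 - Ab n τ ≤ E n τ θ := by
  unfold E D
  have h1 := Finset.sum_le_sum (fun i (hi : i ∈ Icc 1 n) =>
    h63_fE_low hτ θ (Finset.mem_Icc.1 hi).1)
  have h2 := Finset.sum_le_sum (fun i (hi : i ∈ Ioc n (2 * n)) =>
    h63_fE_low hτ θ (by have := (Finset.mem_Ioc.1 hi).1; omega : 1 ≤ i))
  have h3 := Finset.sum_le_sum (fun i (hi : i ∈ Ioc (3 * n) (6 * n)) =>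
    h63_fE_up hτ θ (by have := (Finset.mem_Ioc.1 hi).1; omega : 1 ≤ i))
  rw [Finset.sum_add_distrib, ← Finset.sum_div] at h1 h2
  unfold S1 Ab
  linarith

/-- EXP1 -/
theorem EXP1 (n : ℕ) {τ : ℝ} (hτ : 0 < τ) (θ : ℝ) : S1 n τ θ - Ab n τ ≤ E n τ θ := by
  have := EXP2 n hτ θ
  have := S1_nonneg n (2 * τ) (2 * θ)
  linarith

theorem S1_anti (n : ℕ) {τ τ' : ℝ} (h : τ ≤ τ') (θ : ℝ) : S1 n τ' θ ≤ S1 n τ θ := by
  have h' : ∀ i : ℕ, Real.exp (-(i * τ')) * (1 - Real.cos (i * θ)) ≤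
      Real.exp (-(i * τ)) * (1 - Real.cos (i * θ)) := by
    intro i
    have := Real.cos_le_one (i * θ)
    refine mul_le_mul_of_nonneg_right (Real.exp_le_exp.2 ?_) (by linarith)
    have : (i : ℝ) * τ ≤ i * τ' := mul_le_mul_of_nonneg_left h (Nat.cast_nonneg _)
    linarith
  unfold S1
  have h1 := Finset.sum_le_sum (fun i (_ : i ∈ Icc 1 n) => h' i)
  have h2 := Finset.sum_le_sum (fun i (_ : i ∈ Ioc n (2 * n)) => h' i)
  linarith

theorem S1_mono (n : ℕ) {τ θ θ' : ℝ} (h0 : 0 ≤ θ) (h : θ ≤ θ') (h1 : 2 * n * θ' ≤ Real.pi) :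
    S1 n τ θ ≤ S1 n τ θ' := by
  have h' : ∀ i : ℕ, i ≤ 2 * n → Real.exp (-(i * τ)) * (1 - Real.cos (i * θ)) ≤
      Real.exp (-(i * τ)) * (1 - Real.cos (i * θ')) := by
    intro i hi
    refine mul_le_mul_of_nonneg_left ?_ (Real.exp_pos _).le
    have hi' : (i : ℝ) ≤ 2 * n := by exact_mod_cast hi
    have h2 : (i : ℝ) * θ' ≤ Real.pi := by
      have := mul_le_mul_of_nonneg_right hi' (h0.trans h)
      linarith
    have h3 : (i : ℝ) * θ ≤ i * θ' := mul_le_mul_of_nonneg_left h (Nat.cast_nonneg _)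
    have h4 : 0 ≤ (i : ℝ) * θ := by positivity
    have := Real.cos_le_cos_of_nonneg_of_le_pi h4 h2 h3
    linarith
  unfold S1
  have h2 := Finset.sum_le_sum (fun i (hi : i ∈ Icc 1 n) =>
    h' i (by have := (Finset.mem_Icc.1 hi).2; omega))
  have h3 := Finset.sum_le_sum (fun i (hi : i ∈ Ioc n (2 * n)) =>
    h' i (Finset.mem_Ioc.1 hi).2)
  linarith

theorem Ab_anti (n : ℕ) {τ τ' : ℝ} (hτ : 0 < τ) (h : τ ≤ τ') : Ab n τ' ≤ Ab n τ := by
  unfold Ab
  refine Finset.sum_le_sum fun i hi => ?_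
  have hi1 : 1 ≤ i := by have := (Finset.mem_Ioc.1 hi).1; omega
  have hi' : (0 : ℝ) < i := by exact_mod_cast hi1
  unfold Lf
  have h1 : 0 < Real.sinh (i * τ / 2) := Real.sinh_pos_iff.2 (by positivity)
  have h2 : Real.sinh (i * τ / 2) ≤ Real.sinh (i * τ' / 2) := by
    apply Real.sinh_le_sinh.2
    have : (i : ℝ) * τ ≤ i * τ' := mul_le_mul_of_nonneg_left h hi'.le
    linarith
  have h3 : 1 / Real.sinh (i * τ' / 2) ^ 2 ≤ 1 / Real.sinh (i * τ / 2) ^ 2 := by
    apply one_div_le_one_div_of_le (by positivity)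
    gcongr
  have h4 : 0 < 1 / Real.sinh (i * τ' / 2) ^ 2 := by
    have : 0 < Real.sinh (i * τ' / 2) := h1.trans_le h2
    positivity
  have := Real.log_le_log (by linarith : 0 < 1 + 1 / Real.sinh (i * τ' / 2) ^ 2)
    (by linarith : 1 + 1 / Real.sinh (i * τ' / 2) ^ 2 ≤ 1 + 1 / Real.sinh (i * τ / 2) ^ 2)
  linarith

end C048
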