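import Pool.Agent.helper70.KU.Hfin

/-!
# Module GLM: the general checking lemma
-/

set_option autoImplicit false

namespace C048

open MeasureTheory intervalIntegral

namespace GLMaux

/-- partial sums of `exp (-x)` -/
noncomputable def Sm : ℕ → ℝ → ℝ
  | 0, _ => 0
  | m + 1, x => Sm m x + (-x) ^ m / (m.factorial : ℝ)

theorem Sm_zero_right (m : ℕ) : Sm (m + 1) 0 = 1 := by
  induction m with
  | zero => simp [Sm]
  | succ m ih => rw [Sm, ih]; simp

theorem hasDerivAt_Sm (m : ℕ) (x : ℝ) : HasDerivAt (Sm (m + 1)) (-(Sm m x)) x := by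
  induction m with
  | zero =>
    have : Sm (0 + 1) = fun _ => (1 : ℝ) := by
      funext y
      simp [Sm]
    rw [this]
    exact (hasDerivAt_const x (1 : ℝ)).congr_deriv (by simp [Sm])
  | succ m ih =>
    have h1 : HasDerivAt (fun x : ℝ => (-x) ^ (m + 1) / ((m + 1).factorial : ℝ))
        (-((-x) ^ m / (m.factorial : ℝ))) x := by
      have h2 := ((hasDerivAt_neg x).pow (m + 1)).div_const ((m + 1).factorial : ℝ)
      refine h2.congr_deriv ?_
      rw [Nat.factorial_succ]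
      push_cast
      have : (m.factorial : ℝ) ≠ 0 := by exact_mod_cast m.factorial_ne_zero
      have : (m : ℝ) + 1 ≠ 0 := by positivity
      field_simp
    have h3 := (ih.add h1).congr_deriv (g' := -(Sm (m + 1) x)) (by rw [Sm]; ring)
    exact h3

/-- alternating bounds for `exp (-x)`, `x ≥ 0` -/
theorem alt (m : ℕ) : ∀ x : ℝ, 0 ≤ x → 0 ≤ (-1) ^ m * (Real.exp (-x) - Sm m x) := by
  induction m with
  | zero => intro x _; simp [Sm, (Real.exp_pos _).le]
  | succ m ih =>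
    have hd : ∀ y : ℝ, HasDerivAt (fun x => (-1) ^ (m + 1) * (Real.exp (-x) - Sm (m + 1) x))
        ((-1) ^ m * (Real.exp (-y) - Sm m y)) y := by
      intro y
      have h1 : HasDerivAt (fun x : ℝ => Real.exp (-x)) (Real.exp (-y) * -1) y :=
        (hasDerivAt_neg y).exp
      have h2 := (h1.sub (hasDerivAt_Sm m y)).const_mul ((-1 : ℝ) ^ (m + 1))
      refine h2.congr_deriv ?_
      rw [pow_succ]
      ring
    have hm : MonotoneOn (fun x => (-1) ^ (m + 1) * (Real.exp (-x) - Sm (m + 1) x))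
        (Set.Ici 0) := by
      refine monotoneOn_of_deriv_nonneg (convex_Ici 0)
        (fun y _ => (hd y).continuousAt.continuousWithinAt)
        (fun y _ => (hd y).differentiableAt.differentiableWithinAt) ?_
      intro y hy
      rw [interior_Ici] at hy
      rw [(hd y).deriv]
      exact ih y (le_of_lt hy)
    intro x hx
    have h3 := hm Set.self_mem_Ici (Set.mem_Ici.2 hx) hx
    have h4 : (-1 : ℝ) ^ (m + 1) * (Real.exp (-0) - Sm (m + 1) 0) = 0 := by
      rw [Sm_zero_right]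
      simp
    simp only at h3
    rw [h4] at h3
    exact h3

theorem exp_low6 {x : ℝ} (hx : 0 ≤ x) :
    1 - x + x ^ 2 / 2 - x ^ 3 / 6 + x ^ 4 / 24 - x ^ 5 / 120 ≤ Real.exp (-x) := by
  have := alt 6 x hx
  have e : Sm 6 x = 1 - x + x ^ 2 / 2 - x ^ 3 / 6 + x ^ 4 / 24 - x ^ 5 / 120 := by
    simp only [Sm, Nat.factorial]
    push_cast
    ring
  rw [e] at this
  norm_num at this
  linarith

theorem pi_sq_lt : Real.pi ^ 2 < 9.8697 := by
  have h1 := Real.pi_lt_d4
  have h2 := Real.pi_pos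
  nlinarith

theorem lt_pi_sq : 9.86902 < Real.pi ^ 2 := by
  have h1 := Real.pi_gt_d4
  nlinarith

theorem int_poly (c : ℝ) : ∫ t in (0:ℝ)..1.6, (1 - c * t ^ 2 + (c * t ^ 2) ^ 2 / 2 -
    (c * t ^ 2) ^ 3 / 6 + (c * t ^ 2) ^ 4 / 24 - (c * t ^ 2) ^ 5 / 120) =
    1.6 - c * 1.6 ^ 3 / 3 + c ^ 2 * 1.6 ^ 5 / 10 - c ^ 3 * 1.6 ^ 7 / 42 + c ^ 4 * 1.6 ^ 9 / 216 -
      c ^ 5 * 1.6 ^ 11 / 1320 := by
  have hd : ∀ t ∈ Set.uIcc (0:ℝ) 1.6, HasDerivAt (fun t : ℝ => t - c * t ^ 3 / 3 +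
      c ^ 2 * t ^ 5 / 10 - c ^ 3 * t ^ 7 / 42 + c ^ 4 * t ^ 9 / 216 - c ^ 5 * t ^ 11 / 1320)
      (1 - c * t ^ 2 + (c * t ^ 2) ^ 2 / 2 -
    (c * t ^ 2) ^ 3 / 6 + (c * t ^ 2) ^ 4 / 24 - (c * t ^ 2) ^ 5 / 120) t := by
    intro t _
    have h1 := hasDerivAt_id t
    have h3 := ((hasDerivAt_pow 3 t).const_mul c).div_const 3
    have h5 := ((hasDerivAt_pow 5 t).const_mul (c ^ 2)).div_const 10
    have h7 := ((hasDerivAt_pow 7 t).const_mul (c ^ 3)).div_const 42
    have h9 := ((hasDerivAt_pow 9 t).const_mul (c ^ 4)).div_const 216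
    have h11 := ((hasDerivAt_pow 11 t).const_mul (c ^ 5)).div_const 1320
    have := ((((h1.sub h3).add h5).sub h7).add h9).sub h11
    refine this.congr_deriv ?_
    push_cast
    norm_num
    ring
  rw [integral_eq_sub_of_hasDerivAt hd]
  · ring
  · apply Continuous.intervalIntegrable
    fun_prop

end GLMaux

open GLMaux

/-- tail of a Gaussian integral, used with `c = 4/π²`, `t0 = 1.6` etc. -/
theorem gauss_tail_16 : ∫ t in Set.Ioi (1.6 : ℝ), Real.exp (-(4 / Real.pi ^ 2) * t ^ 2) ≤ 0.209 := by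
  have hpi := Real.pi_pos
  have hpi4 := Real.pi_lt_d4
  have hpi4' := Real.pi_gt_d6
  have hc : 0 < 4 / Real.pi ^ 2 := by positivity
  have hint := integrable_exp_neg_mul_sq hc
  have h1 := integral_Ioi_sub_Ioi (hint.integrableOn (s := Set.Ioi 0)) (by norm_num : (0:ℝ) ≤ 1.6)
  rw [integral_gaussian_Ioi] at h1
  have h2 : (∫ t in (0:ℝ)..1.6, (1 - 0.40529 * t ^ 2 + (0.40529 * t ^ 2) ^ 2 / 2 -
    (0.40529 * t ^ 2) ^ 3 / 6 + (0.40529 * t ^ 2) ^ 4 / 24 - (0.40529 * t ^ 2) ^ 5 / 120)) ≤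
      ∫ t in (0:ℝ)..1.6, Real.exp (-(4 / Real.pi ^ 2) * t ^ 2) := by
    apply integral_mono_on (by norm_num)
    · apply Continuous.intervalIntegrable
      fun_prop
    · apply Continuous.intervalIntegrable
      fun_prop
    · intro t _
      have h3 := exp_low6 (x := 0.40529 * t ^ 2) (by positivity)
      refine h3.trans (Real.exp_le_exp.2 ?_)
      have h4 : 4 / Real.pi ^ 2 ≤ 0.40529 := by
        rw [div_le_iff₀ (by positivity)]
        nlinarith
      have := mul_le_mul_of_nonneg_right h4 (sq_nonneg t)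
      linarith
  rw [int_poly] at h2
  have h5 : Real.sqrt (Real.pi / (4 / Real.pi ^ 2)) / 2 ≤ 1.3921 := by
    rw [div_le_iff₀ (by norm_num), Real.sqrt_le_left (by norm_num)]
    have : Real.pi / (4 / Real.pi ^ 2) = Real.pi ^ 3 / 4 := by field_simp
    rw [this]
    have h6 : Real.pi ^ 2 < 9.8697 := pi_sq_lt
    have h7 : Real.pi ^ 2 ≤ 3.1416 ^ 2 := by
      apply pow_le_pow_left₀ hpi.le hpi4.le
    have h8 : Real.pi ^ 3 ≤ 3.1416 ^ 3 := by
      apply pow_le_pow_left₀ hpi.le hpi4.le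
    norm_num at h8 ⊢
    linarith
  norm_num at h2 h5 ⊢
  norm_num at h1
  linarith


namespace GLMaux

theorem zoneA {g : ℝ → ℝ} (hgc : Continuous g) {a b e : ℝ} (ha : 0 ≤ a) (hab : a ≤ b)
    (h : ∀ θ, a ≤ θ → θ ≤ b → g θ ≤ e) : ∫ θ in a..b, θ * g θ ≤ e * (b ^ 2 - a ^ 2) / 2 := by
  have h1 : ∫ θ in a..b, θ * g θ ≤ ∫ θ in a..b, θ * e := by
    apply integral_mono_on hab
    · apply Continuous.intervalIntegrable
      fun_prop
    · apply Continuous.intervalIntegrable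
      fun_prop
    · intro θ hθ
      exact mul_le_mul_of_nonneg_left (h θ hθ.1 hθ.2) (ha.trans hθ.1)
  rw [intervalIntegral.integral_mul_const, integral_id] at h1
  linarith

theorem zoneB {g : ℝ → ℝ} (hgc : Continuous g) {a b e : ℝ} (hab : a ≤ b)
    (h : ∀ θ, a ≤ θ → θ ≤ b → g θ ≤ e) : ∫ θ in a..b, g θ ≤ e * (b - a) := by
  have h1 : ∫ θ in a..b, g θ ≤ ∫ _ in a..b, e := by
    apply integral_mono_on hab
    · exact hgc.intervalIntegrable _ _
    · exact continuous_const.intervalIntegrable _ _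
    · intro θ hθ
      exact h θ hθ.1 hθ.2
  rw [intervalIntegral.integral_const, smul_eq_mul] at h1
  linarith

theorem gaussA {g : ℝ → ℝ} (hgc : Continuous g) {b k : ℝ} (hb : 0 ≤ b) (hk : 0 < k)
    (h : ∀ θ, 0 ≤ θ → θ ≤ b → g θ ≤ Real.exp (-k * θ ^ 2)) :
    ∫ θ in (0:ℝ)..b, θ * g θ ≤ 1 / (2 * k) := by
  have h1 : ∫ θ in (0:ℝ)..b, θ * g θ ≤ ∫ θ in (0:ℝ)..b, θ * Real.exp (-k * θ ^ 2) := by
    apply integral_mono_on hb
    · apply Continuous.intervalIntegrable
      fun_prop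
    · apply Continuous.intervalIntegrable
      fun_prop
    · intro θ hθ
      exact mul_le_mul_of_nonneg_left (h θ hθ.1 hθ.2) hθ.1
  have hd : ∀ t ∈ Set.uIcc (0:ℝ) b, HasDerivAt (fun t : ℝ => -(Real.exp (-k * t ^ 2)) / (2 * k))
      (t * Real.exp (-k * t ^ 2)) t := by
    intro t _
    have h2 := (((hasDerivAt_pow 2 t).const_mul (-k)).exp.neg).div_const (2 * k)
    refine h2.congr_deriv ?_
    push_cast
    field_simp
  rw [integral_eq_sub_of_hasDerivAt hd
    (by apply Continuous.intervalIntegrable; fun_prop)] at h1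
  refine h1.trans ?_
  have h3 : 0 < Real.exp (-k * b ^ 2) := Real.exp_pos _
  have e1 : -(Real.exp (-k * b ^ 2)) / (2 * k) - -(Real.exp (-k * 0 ^ 2)) / (2 * k) =
      (1 - Real.exp (-k * b ^ 2)) / (2 * k) := by
    norm_num
    ring
  rw [e1]
  apply div_le_div_of_nonneg_right _ (by positivity)
  linarith

theorem gaussB {g : ℝ → ℝ} (hgc : Continuous g) {b c s t0 : ℝ} (hs : 0 < s) (hc : 0 < c)
    (ht : 0 ≤ t0) (hb : t0 / s ≤ b)
    (h : ∀ θ, 0 ≤ θ → θ ≤ b → g θ ≤ Real.exp (-c * s ^ 2 * θ ^ 2)) :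
    ∫ θ in (t0 / s)..b, g θ ≤ (∫ t in Set.Ioi t0, Real.exp (-c * t ^ 2)) / s := by
  have h1 : ∫ θ in (t0 / s)..b, g θ ≤ ∫ θ in (t0 / s)..b, Real.exp (-c * (s * θ) ^ 2) := by
    apply integral_mono_on hb
    · exact hgc.intervalIntegrable _ _
    · apply Continuous.intervalIntegrable
      fun_prop
    · intro θ hθ
      have h0 : 0 ≤ θ := (div_nonneg ht hs.le).trans hθ.1
      refine (h θ h0 hθ.2).trans (le_of_eq ?_)
      congr 1
      ring
  have h2 := integral_comp_mul_left (a := t0 / s) (b := b) (fun t => Real.exp (-c * t ^ 2)) hs.ne'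
  have e1 : s * (t0 / s) = t0 := by field_simp
  rw [e1, smul_eq_mul] at h2
  rw [h2] at h1
  have hint := integrable_exp_neg_mul_sq hc
  have hb' : t0 ≤ s * b := by
    rw [div_le_iff₀ hs] at hb
    linarith
  have h3 := integral_Ioi_sub_Ioi (hint.integrableOn (s := Set.Ioi t0)) hb'
  have h4 : 0 ≤ ∫ t in Set.Ioi (s * b), Real.exp (-c * t ^ 2) :=
    setIntegral_nonneg measurableSet_Ioi fun t _ => (Real.exp_pos _).le
  refine h1.trans ?_
  rw [← h3, inv_mul_eq_div]
  apply div_le_div_of_nonneg_right _ hs.le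
  linarith

end GLMaux

open GLMaux

set_option maxHeartbeats 1000000 in
/-- GLM -/
theorem GLmain (g : ℝ → ℝ) (hgc : Continuous g) (hg0 : ∀ θ, 0 ≤ g θ) (n : ℕ) (hn : 150 ≤ n)
    (V τ e4 e5 e6 : ℝ) (hV : 40 * (n : ℝ) ^ 2 ≤ V) (hτ : 0 < τ)
    (h1 : ∀ θ : ℝ, 0 ≤ θ → θ ≤ Real.pi / (12 * n) → g θ ≤ Real.exp (-(4 / Real.pi ^ 2) * V * θ ^ 2))
    (h2 : ∀ θ, Real.pi / (12 * n) ≤ θ → θ ≤ Real.pi / (9 * n) →
      g θ ≤ Real.exp (-(V / (36 * (n : ℝ) ^ 2))))
    (h3 : ∀ θ, Real.pi / (9 * n) ≤ θ → θ ≤ 2 * Real.pi / (9 * n) →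
      g θ ≤ Real.exp (-(V / (24 * (n : ℝ) ^ 2))))
    (h3' : ∀ θ, 2 * Real.pi / (9 * n) ≤ θ → θ ≤ Real.pi / (4 * n) →
      g θ ≤ Real.exp (-(V / (36 * (n : ℝ) ^ 2))))
    (h4 : ∀ θ, Real.pi / (4 * n) ≤ θ → θ ≤ Real.pi / (2 * n) → g θ ≤ e4)
    (h5 : ∀ θ, Real.pi / (2 * n) ≤ θ → θ ≤ 4 / n → g θ ≤ e5)
    (h6 : ∀ θ : ℝ, 4 / (n : ℝ) ≤ θ → θ ≤ Real.pi → g θ ≤ e6)
    (hf : hfin n V τ e4 e5 e6) :
    ∫ θ in (0:ℝ)..Real.pi, θ * g θ
      < τ * (1.6 / Real.sqrt V - V * (1.6 / Real.sqrt V) ^ 3 / 6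
          - ∫ θ in (1.6 / Real.sqrt V)..Real.pi, g θ) := by
  have hpi := Real.pi_pos
  have hpi4 := Real.pi_lt_d4
  have hpi4' := Real.pi_gt_d4
  have hq1 := pi_sq_lt
  have hq2 := lt_pi_sq
  have hN : (150 : ℝ) ≤ n := by exact_mod_cast hn
  have hN0 : (0 : ℝ) < n := by linarith
  have hV0 : 0 < V := lt_of_lt_of_le (by positivity) hV
  set s := Real.sqrt V with hs
  have hs0 : 0 < s := Real.sqrt_pos.2 hV0
  have hss : s ^ 2 = V := Real.sq_sqrt hV0.le
  set N : ℝ := (n : ℝ) with hNdef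
  -- thresholds
  have t01 : 1.6 / s ≤ Real.pi / (12 * N) := by
    have hs2 : 6.2 * N ≤ s := by
      apply Real.le_sqrt_of_sq_le
      nlinarith [sq_nonneg N]
    rw [div_le_div_iff₀ hs0 (by positivity)]
    nlinarith
  have t12 : Real.pi / (12 * N) ≤ Real.pi / (9 * N) := by
    apply div_le_div_of_nonneg_left hpi.le (by positivity)
    linarith
  have t23 : Real.pi / (9 * N) ≤ 2 * Real.pi / (9 * N) := by
    apply div_le_div_of_nonneg_right _ (by positivity)
    linarith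
  have t34 : 2 * Real.pi / (9 * N) ≤ Real.pi / (4 * N) := by
    rw [div_le_div_iff₀ (by positivity) (by positivity)]
    nlinarith [mul_pos hpi hN0]
  have t45 : Real.pi / (4 * N) ≤ Real.pi / (2 * N) := by
    apply div_le_div_of_nonneg_left hpi.le (by positivity)
    linarith
  have t56 : Real.pi / (2 * N) ≤ 4 / N := by
    rw [div_le_div_iff₀ (by positivity) (by positivity)]
    nlinarith
  have t67 : 4 / N ≤ Real.pi := by
    rw [div_le_iff₀ hN0]
    nlinarith
  have p1 : 0 ≤ Real.pi / (12 * N) := by positivity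
  have p2 : 0 ≤ Real.pi / (9 * N) := by positivity
  have p3 : 0 ≤ 2 * Real.pi / (9 * N) := by positivity
  have p4 : 0 ≤ Real.pi / (4 * N) := by positivity
  have p5 : 0 ≤ Real.pi / (2 * N) := by positivity
  have p6 : 0 ≤ 4 / N := by positivity
  have he4 : 0 ≤ e4 := (hg0 _).trans (h4 _ le_rfl t45)
  have he5 : 0 ≤ e5 := (hg0 _).trans (h5 _ le_rfl t56)
  have he6 : 0 ≤ e6 := (hg0 _).trans (h6 _ t67 le_rfl)
  set A := Real.exp (-(V / (36 * N ^ 2))) with hA
  set B := Real.exp (-(V / (24 * N ^ 2))) with hB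
  have hA0 : 0 < A := Real.exp_pos _
  have hB0 : 0 < B := Real.exp_pos _
  have hc0 : 0 < 4 / Real.pi ^ 2 := by positivity
  -- first integral
  have I : ∀ a b : ℝ, IntervalIntegrable (fun θ => θ * g θ) volume a b := fun a b => by
    apply Continuous.intervalIntegrable
    fun_prop
  have J : ∀ a b : ℝ, IntervalIntegrable g volume a b := fun a b => hgc.intervalIntegrable _ _
  have z1 := gaussA hgc p1 (k := 4 / Real.pi ^ 2 * V) (by positivity) (by
    intro θ h0 h0'
    have := h1 θ h0 h0'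
    have e : -(4 / Real.pi ^ 2 * V) * θ ^ 2 = -(4 / Real.pi ^ 2) * V * θ ^ 2 := by ring
    rw [e]
    exact this)
  have z2 := zoneA hgc p1 t12 h2
  have z3 := zoneA hgc p2 t23 h3
  have z3' := zoneA hgc p3 t34 h3'
  have z4 := zoneA hgc p4 t45 h4
  have z5 := zoneA hgc p5 t56 h5
  have z6 := zoneA hgc p6 t67 h6
  have s1 : ∫ θ in (0:ℝ)..Real.pi, θ * g θ =
      (∫ θ in (0:ℝ)..(Real.pi / (12 * N)), θ * g θ) +
      (∫ θ in (Real.pi / (12 * N))..(Real.pi / (9 * N)), θ * g θ) +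
      (∫ θ in (Real.pi / (9 * N))..(2 * Real.pi / (9 * N)), θ * g θ) +
      (∫ θ in (2 * Real.pi / (9 * N))..(Real.pi / (4 * N)), θ * g θ) +
      (∫ θ in (Real.pi / (4 * N))..(Real.pi / (2 * N)), θ * g θ) +
      (∫ θ in (Real.pi / (2 * N))..(4 / N), θ * g θ) +
      (∫ θ in (4 / N)..Real.pi, θ * g θ) := by
    rw [integral_add_adjacent_intervals (I _ _) (I _ _),
      integral_add_adjacent_intervals (I _ _) (I _ _),
      integral_add_adjacent_intervals (I _ _) (I _ _),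
      integral_add_adjacent_intervals (I _ _) (I _ _),
      integral_add_adjacent_intervals (I _ _) (I _ _),
      integral_add_adjacent_intervals (I _ _) (I _ _)]
  -- second integral
  have w1 := gaussB hgc hs0 hc0 (by norm_num : (0:ℝ) ≤ 1.6) t01 (by
    intro θ h0 h0'
    rw [hss]
    exact h1 θ h0 h0')
  have w1' : (∫ t in Set.Ioi (1.6 : ℝ), Real.exp (-(4 / Real.pi ^ 2) * t ^ 2)) / s ≤ 0.209 / s :=
    div_le_div_of_nonneg_right gauss_tail_16 hs0.le
  have w2 := zoneB hgc t12 h2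
  have w3 := zoneB hgc t23 h3
  have w3' := zoneB hgc t34 h3'
  have w4 := zoneB hgc t45 h4
  have w5 := zoneB hgc t56 h5
  have w6 := zoneB hgc t67 h6
  have s2 : ∫ θ in (1.6 / s)..Real.pi, g θ =
      (∫ θ in (1.6 / s)..(Real.pi / (12 * N)), g θ) +
      (∫ θ in (Real.pi / (12 * N))..(Real.pi / (9 * N)), g θ) +
      (∫ θ in (Real.pi / (9 * N))..(2 * Real.pi / (9 * N)), g θ) +
      (∫ θ in (2 * Real.pi / (9 * N))..(Real.pi / (4 * N)), g θ) +
      (∫ θ in (Real.pi / (4 * N))..(Real.pi / (2 * N)), g θ) +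
      (∫ θ in (Real.pi / (2 * N))..(4 / N), g θ) +
      (∫ θ in (4 / N)..Real.pi, g θ) := by
    rw [integral_add_adjacent_intervals (J _ _) (J _ _),
      integral_add_adjacent_intervals (J _ _) (J _ _),
      integral_add_adjacent_intervals (J _ _) (J _ _),
      integral_add_adjacent_intervals (J _ _) (J _ _),
      integral_add_adjacent_intervals (J _ _) (J _ _),
      integral_add_adjacent_intervals (J _ _) (J _ _)]
  -- upper bound of the first integral
  have u1 : V * ∫ θ in (0:ℝ)..Real.pi, θ * g θ ≤ 1.2338 + V / N ^ 2 * (0.0914 * A + 0.1828 * B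
      + 0.9253 * e4 + 6.7664 * e5) + V * 4.935 * e6 := by
    have hN2 : 0 < V / N ^ 2 := by positivity
    have k1 : V * (1 / (2 * (4 / Real.pi ^ 2 * V))) ≤ 1.2338 := by
      have : V * (1 / (2 * (4 / Real.pi ^ 2 * V))) = Real.pi ^ 2 / 8 := by
        field_simp
        norm_num
      rw [this]
      linarith
    have k2 : V * (A * ((Real.pi / (9 * N)) ^ 2 - (Real.pi / (12 * N)) ^ 2) / 2) =
        V / N ^ 2 * (A * (Real.pi ^ 2 * (7 / 2592))) := by
      field_simp
      ring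
    have k3 : V * (B * ((2 * Real.pi / (9 * N)) ^ 2 - (Real.pi / (9 * N)) ^ 2) / 2) =
        V / N ^ 2 * (B * (Real.pi ^ 2 * (1 / 54))) := by
      field_simp
      ring
    have k3' : V * (A * ((Real.pi / (4 * N)) ^ 2 - (2 * Real.pi / (9 * N)) ^ 2) / 2) =
        V / N ^ 2 * (A * (Real.pi ^ 2 * (17 / 2592))) := by
      field_simp
      ring
    have k4 : V * (e4 * ((Real.pi / (2 * N)) ^ 2 - (Real.pi / (4 * N)) ^ 2) / 2) =
        V / N ^ 2 * (e4 * (Real.pi ^ 2 * (3 / 32))) := by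
      field_simp
      ring
    have k5 : V * (e5 * ((4 / N) ^ 2 - (Real.pi / (2 * N)) ^ 2) / 2) =
        V / N ^ 2 * (e5 * (8 - Real.pi ^ 2 / 8)) := by
      field_simp
      ring
    have k6 : V * (e6 * (Real.pi ^ 2 - (4 / N) ^ 2) / 2) ≤ V * 4.935 * e6 := by
      have : e6 * (Real.pi ^ 2 - (4 / N) ^ 2) / 2 ≤ 4.935 * e6 := by
        have := mul_nonneg he6 (sq_nonneg (4 / N))
        have := mul_le_mul_of_nonneg_left hq1.le he6
        linarith
      have := mul_le_mul_of_nonneg_left this hV0.le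
      linarith
    have m2 : A * (Real.pi ^ 2 * (7 / 2592)) + A * (Real.pi ^ 2 * (17 / 2592)) ≤ 0.0914 * A := by
      have := mul_le_mul_of_nonneg_left hq1.le hA0.le
      linarith
    have m3 : B * (Real.pi ^ 2 * (1 / 54)) ≤ 0.1828 * B := by
      have := mul_le_mul_of_nonneg_left hq1.le hB0.le
      linarith
    have m4 : e4 * (Real.pi ^ 2 * (3 / 32)) ≤ 0.9253 * e4 := by
      have := mul_le_mul_of_nonneg_left hq1.le he4
      linarith
    have m5 : e5 * (8 - Real.pi ^ 2 / 8) ≤ 6.7664 * e5 := by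
      have := mul_le_mul_of_nonneg_left hq2.le he5
      linarith
    have m := mul_le_mul_of_nonneg_left (add_le_add (add_le_add (add_le_add m2 m3) m4) m5) hN2.le
    rw [s1]
    have y1 := mul_le_mul_of_nonneg_left z1 hV0.le
    have y2 := mul_le_mul_of_nonneg_left z2 hV0.le
    have y3 := mul_le_mul_of_nonneg_left z3 hV0.le
    have y3' := mul_le_mul_of_nonneg_left z3' hV0.le
    have y4 := mul_le_mul_of_nonneg_left z4 hV0.le
    have y5 := mul_le_mul_of_nonneg_left z5 hV0.le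
    have y6 := mul_le_mul_of_nonneg_left z6 hV0.le
    rw [k2] at y2
    rw [k3] at y3
    rw [k3'] at y3'
    rw [k4] at y4
    rw [k5] at y5
    simp only [mul_add] at m ⊢
    linarith
  have u2 : s * ∫ θ in (1.6 / s)..Real.pi, g θ ≤ 0.209 + s / N * (0.1746 * A + 0.3491 * B
      + 0.7854 * e4 + 2.4293 * e5) + s * 3.1416 * e6 := by
    have hN2 : 0 < s / N := by positivity
    have k1 : s * (0.209 / s) = 0.209 := by field_simp
    have k2 : s * (A * (Real.pi / (9 * N) - Real.pi / (12 * N))) =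
        s / N * (A * (Real.pi * (1 / 36))) := by
      field_simp
      ring
    have k3 : s * (B * (2 * Real.pi / (9 * N) - Real.pi / (9 * N))) =
        s / N * (B * (Real.pi * (1 / 9))) := by
      field_simp
      ring
    have k3' : s * (A * (Real.pi / (4 * N) - 2 * Real.pi / (9 * N))) =
        s / N * (A * (Real.pi * (1 / 36))) := by
      field_simp
      ring
    have k4 : s * (e4 * (Real.pi / (2 * N) - Real.pi / (4 * N))) =
        s / N * (e4 * (Real.pi * (1 / 4))) := by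
      field_simp
      ring
    have k5 : s * (e5 * (4 / N - Real.pi / (2 * N))) = s / N * (e5 * (4 - Real.pi / 2)) := by
      field_simp
    have k6 : s * (e6 * (Real.pi - 4 / N)) ≤ s * 3.1416 * e6 := by
      have : e6 * (Real.pi - 4 / N) ≤ 3.1416 * e6 := by
        have := mul_nonneg he6 p6
        have := mul_le_mul_of_nonneg_left hpi4.le he6
        linarith
      have := mul_le_mul_of_nonneg_left this hs0.le
      linarith
    have m2 : A * (Real.pi * (1 / 36)) + A * (Real.pi * (1 / 36)) ≤ 0.1746 * A := by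
      have := mul_le_mul_of_nonneg_left hpi4.le hA0.le
      linarith
    have m3 : B * (Real.pi * (1 / 9)) ≤ 0.3491 * B := by
      have := mul_le_mul_of_nonneg_left hpi4.le hB0.le
      linarith
    have m4 : e4 * (Real.pi * (1 / 4)) ≤ 0.7854 * e4 := by
      have := mul_le_mul_of_nonneg_left hpi4.le he4
      linarith
    have m5 : e5 * (4 - Real.pi / 2) ≤ 2.4293 * e5 := by
      have := mul_le_mul_of_nonneg_left hpi4'.le he5
      linarith
    have m := mul_le_mul_of_nonneg_left (add_le_add (add_le_add (add_le_add m2 m3) m4) m5) hN2.le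
    rw [s2]
    have y1 := mul_le_mul_of_nonneg_left (w1.trans w1') hs0.le
    have y2 := mul_le_mul_of_nonneg_left w2 hs0.le
    have y3 := mul_le_mul_of_nonneg_left w3 hs0.le
    have y3' := mul_le_mul_of_nonneg_left w3' hs0.le
    have y4 := mul_le_mul_of_nonneg_left w4 hs0.le
    have y5 := mul_le_mul_of_nonneg_left w5 hs0.le
    have y6 := mul_le_mul_of_nonneg_left w6 hs0.le
    rw [k1] at y1
    rw [k2] at y2
    rw [k3] at y3
    rw [k3'] at y3'
    rw [k4] at y4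
    rw [k5] at y5
    simp only [mul_add] at m ⊢
    linarith
  -- conclusion
  unfold hfin at hf
  have h7 : V * (τ * (1.6 / s - V * (1.6 / s) ^ 3 / 6 - ∫ θ in (1.6 / s)..Real.pi, g θ)) =
      τ * s * ((1.6 - 1.6 ^ 3 / 6) - s * ∫ θ in (1.6 / s)..Real.pi, g θ) := by
    rw [← hss]
    field_simp
  have h8 : V * ∫ θ in (0:ℝ)..Real.pi, θ * g θ <
      V * (τ * (1.6 / s - V * (1.6 / s) ^ 3 / 6 - ∫ θ in (1.6 / s)..Real.pi, g θ)) := by
    rw [h7]
    refine lt_of_le_of_lt u1 (lt_of_lt_of_le hf ?_)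
    apply mul_le_mul_of_nonneg_left _ (by positivity)
    norm_num at u2 ⊢
    linarith
  exact lt_of_mul_lt_mul_left h8 hV0.le

end C048
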