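import Pool.Agent.helper70.KU.DB

/-!
# Module MV3: intermediate value for the mean
-/

set_option autoImplicit false

namespace C048

open Finset

namespace MV3aux

theorem L_nonneg {x : ℝ} (hx : 0 ≤ x) : 0 ≤ x * Real.cosh x - Real.sinh x := by
  have hd : ∀ y, HasDerivAt (fun x : ℝ => x * Real.cosh x - Real.sinh x)
      (1 * Real.cosh y + y * Real.sinh y - Real.cosh y) y := fun y =>
    ((hasDerivAt_id y).mul (Real.hasDerivAt_cosh y)).sub (Real.hasDerivAt_sinh y)
  have hm : MonotoneOn (fun x : ℝ => x * Real.cosh x - Real.sinh x) (Set.Ici 0) := by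
    refine monotoneOn_of_deriv_nonneg (convex_Ici 0)
      (fun y _ => (hd y).continuousAt.continuousWithinAt)
      (fun y _ => (hd y).differentiableAt.differentiableWithinAt) ?_
    intro y hy
    rw [interior_Ici] at hy
    rw [(hd y).deriv]
    have : 0 ≤ Real.sinh y := Real.sinh_nonneg_iff.2 hy.le
    have := mul_nonneg hy.le this
    linarith
  have := hm Set.self_mem_Ici (Set.mem_Ici.2 hx) hx
  simpa using this

theorem K_nonneg {x : ℝ} (hx : 0 ≤ x) : 0 ≤ x * Real.sinh x - 2 * Real.cosh x + 2 := by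
  have hd : ∀ y, HasDerivAt (fun x : ℝ => x * Real.sinh x - 2 * Real.cosh x + 2)
      (1 * Real.sinh y + y * Real.cosh y - 2 * Real.sinh y) y := fun y =>
    (((hasDerivAt_id y).mul (Real.hasDerivAt_sinh y)).sub
      ((Real.hasDerivAt_cosh y).const_mul 2)).add_const 2
  have hm : MonotoneOn (fun x : ℝ => x * Real.sinh x - 2 * Real.cosh x + 2) (Set.Ici 0) := by
    refine monotoneOn_of_deriv_nonneg (convex_Ici 0)
      (fun y _ => (hd y).continuousAt.continuousWithinAt)
      (fun y _ => (hd y).differentiableAt.differentiableWithinAt) ?_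
    intro y hy
    rw [interior_Ici] at hy
    rw [(hd y).deriv]
    have := L_nonneg (le_of_lt hy)
    linarith
  have := hm Set.self_mem_Ici (Set.mem_Ici.2 hx) hx
  simpa using this

theorem H_nonneg {x : ℝ} (hx : 0 ≤ x) : 0 ≤ x * Real.cosh x + 2 * x - 3 * Real.sinh x := by
  have hd : ∀ y, HasDerivAt (fun x : ℝ => x * Real.cosh x + 2 * x - 3 * Real.sinh x)
      (1 * Real.cosh y + y * Real.sinh y + 2 * 1 - 3 * Real.cosh y) y := fun y =>
    (((hasDerivAt_id y).mul (Real.hasDerivAt_cosh y)).add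
      ((hasDerivAt_id y).const_mul 2)).sub ((Real.hasDerivAt_sinh y).const_mul 3)
  have hm : MonotoneOn (fun x : ℝ => x * Real.cosh x + 2 * x - 3 * Real.sinh x) (Set.Ici 0) := by
    refine monotoneOn_of_deriv_nonneg (convex_Ici 0)
      (fun y _ => (hd y).continuousAt.continuousWithinAt)
      (fun y _ => (hd y).differentiableAt.differentiableWithinAt) ?_
    intro y hy
    rw [interior_Ici] at hy
    rw [(hd y).deriv]
    have := K_nonneg (le_of_lt hy)
    linarith
  have := hm Set.self_mem_Ici (Set.mem_Ici.2 hx) hx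
  simpa using this

/-- `x/(e^x-1) + x/2 - x²/12` is antitone -/
theorem g_anti : AntitoneOn (fun x : ℝ => x / (Real.exp x - 1) + x / 2 - x ^ 2 / 12)
    (Set.Ioi 0) := by
  have hne : ∀ y : ℝ, 0 < y → Real.exp y - 1 ≠ 0 := by
    intro y hy h
    have := Real.one_lt_exp_iff.2 hy
    linarith
  have hd : ∀ y : ℝ, 0 < y → HasDerivAt (fun x : ℝ => x / (Real.exp x - 1) + x / 2 - x ^ 2 / 12)
      ((1 * (Real.exp y - 1) - y * Real.exp y) / (Real.exp y - 1) ^ 2 + 1 / 2 -
        (2 * y) / 12) y := by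
    intro y hy
    have h1 := (hasDerivAt_id y).div ((Real.hasDerivAt_exp y).sub_const 1) (hne y hy)
    have h2 := ((hasDerivAt_id y).div_const 2)
    have h3 : HasDerivAt (fun x : ℝ => x ^ 2 / 12) ((2 * y) / 12) y := by
      simpa using (hasDerivAt_pow 2 y).div_const 12
    exact (h1.add h2).sub h3
  refine antitoneOn_of_deriv_nonpos (convex_Ioi 0)
    (fun y hy => (hd y hy).continuousAt.continuousWithinAt)
    (fun y hy => ?_) ?_
  · rw [interior_Ioi] at hy
    exact (hd y hy).differentiableAt.differentiableWithinAt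
  · intro y hy
    rw [interior_Ioi] at hy
    rw [(hd y hy).deriv]
    have hy' : (0 : ℝ) < y := hy
    have hH := H_nonneg hy'.le
    have hpos : 0 < (Real.exp y - 1) ^ 2 := by
      have := hne y hy
      positivity
    have e0 : 0 < Real.exp y := Real.exp_pos y
    have e1 : Real.exp y * Real.exp (-y) = 1 := by rw [← Real.exp_add]; simp
    rw [Real.cosh_eq, Real.sinh_eq] at hH
    have key : 6 * (1 * (Real.exp y - 1) - y * Real.exp y) + (3 - y) * (Real.exp y - 1) ^ 2 ≤ 0 := by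
      have h5 := mul_nonneg hH e0.le
      nlinarith [h5, e1]
    have : (1 * (Real.exp y - 1) - y * Real.exp y) / (Real.exp y - 1) ^ 2 + 1 / 2 - 2 * y / 12 =
        (6 * (1 * (Real.exp y - 1) - y * Real.exp y) + (3 - y) * (Real.exp y - 1) ^ 2) /
          (6 * (Real.exp y - 1) ^ 2) := by
      have hne' : Real.exp y - 1 ≠ 0 := hne y hy'
      field_simp
      ring
    rw [this]
    exact div_nonpos_of_nonpos_of_nonneg key (by positivity)

theorem sum_one_Icc (N : ℕ) : ∑ i ∈ Icc 1 N, (i : ℝ) = N * (N + 1) / 2 := by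
  induction N with
  | zero => simp
  | succ N ih => rw [sum_Icc_succ_top (by omega), ih]; push_cast; ring

theorem D_one (n : ℕ) : D n (fun i => (i : ℝ)) = - (10 * (n : ℝ) ^ 2) := by
  rw [D_eq_Icc, sum_one_Icc, sum_one_Icc, sum_one_Icc, sum_one_Icc]
  push_cast; ring

theorem mu_low (n : ℕ) {τ : ℝ} (hτ : 0 < τ) : 5 * (n : ℝ) ^ 2 - mu n τ ≤ S2 n / 12 * τ := by
  have h0 : 0 ≤ D n (fun i => (i : ℝ) / (Real.exp (i * τ) - 1) + (1 / 2) * (i : ℝ) -
      (τ / 12) * (i : ℝ) ^ 2) := by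
    apply D_nonneg
    intro i j hi hij _
    have hi' : (0 : ℝ) < i := by exact_mod_cast hi
    have hj' : (0 : ℝ) < j := by exact_mod_cast (by omega : 0 < j)
    have hij' : (i : ℝ) ≤ j := by exact_mod_cast hij
    have h1 := g_anti (show (i : ℝ) * τ ∈ Set.Ioi 0 from mul_pos hi' hτ)
      (show (j : ℝ) * τ ∈ Set.Ioi 0 from mul_pos hj' hτ) (mul_le_mul_of_nonneg_right hij' hτ.le)
    have e : ∀ k : ℕ, (k : ℝ) / (Real.exp (k * τ) - 1) + (1 / 2) * (k : ℝ) -
        (τ / 12) * (k : ℝ) ^ 2 =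
        ((k * τ) / (Real.exp (k * τ) - 1) + (k * τ) / 2 - (k * τ) ^ 2 / 12) / τ := by
      intro k
      field_simp
    rw [e, e]
    exact div_le_div_of_nonneg_right h1 hτ.le
  rw [D_sub, D_add, D_mul, D_mul, D_one, D_sq] at h0
  unfold mu
  linarith

end MV3aux

/-- MV3: intermediate value -/
theorem exists_tau (n : ℕ) (hn : 1 ≤ n) (m : ℝ) {τ2 : ℝ} (hτ2 : 0 < τ2) (h1 : mu n τ2 ≤ m)
    (h2 : m < 5 * (n : ℝ) ^ 2) :
    ∃ τ : ℝ, 0 < τ ∧ τ ≤ τ2 ∧ mu n τ = m ∧ 5 * (n : ℝ) ^ 2 - m ≤ S2 n / 12 * τ := by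
  have hn' : (1 : ℝ) ≤ n := by exact_mod_cast hn
  have hS : 0 < S2 n := by
    unfold S2
    positivity
  set τ' := min τ2 (12 * (5 * (n : ℝ) ^ 2 - m) / S2 n) with hτ'
  have hpos : 0 < τ' := by
    rw [hτ', lt_min_iff]
    refine ⟨hτ2, div_pos (by linarith) hS⟩
  have hle : τ' ≤ τ2 := min_le_left _ _
  have hm : m ≤ mu n τ' := by
    have h3 := MV3aux.mu_low n hpos
    have h4 : τ' ≤ 12 * (5 * (n : ℝ) ^ 2 - m) / S2 n := min_le_right _ _
    rw [le_div_iff₀ hS] at h4
    linarith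
  have hc : ContinuousOn (fun τ => mu n τ) (Set.Icc τ' τ2) := by
    have hs : ∀ s : Finset ℕ, (∀ i ∈ s, 1 ≤ i) → ContinuousOn
        (fun τ : ℝ => ∑ i ∈ s, (i : ℝ) / (Real.exp (i * τ) - 1)) (Set.Icc τ' τ2) := by
      intro s hs
      refine continuousOn_finsetSum _ fun i hi => ?_
      refine ContinuousOn.div continuousOn_const (by fun_prop) ?_
      intro τ hτ
      have h5 : 0 < (i : ℝ) := by exact_mod_cast hs i hi
      have h6 : 0 < τ := hpos.trans_le hτ.1
      have := Real.one_lt_exp_iff.2 (mul_pos h5 h6)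
      linarith
    unfold mu D
    refine ContinuousOn.sub (ContinuousOn.add (hs _ ?_) (ContinuousOn.mul continuousOn_const
      (hs _ ?_))) (hs _ ?_)
    · intro i hi; exact (Finset.mem_Icc.1 hi).1
    · intro i hi; have := (Finset.mem_Ioc.1 hi).1; omega
    · intro i hi; have := (Finset.mem_Ioc.1 hi).1; omega
  obtain ⟨τ, hτ, hτm⟩ := intermediate_value_Icc' hle hc ⟨h1, hm⟩
  refine ⟨τ, hpos.trans_le hτ.1, hτ.2, hτm, ?_⟩
  have := MV3aux.mu_low n (hpos.trans_le hτ.1)
  have hτm' : mu n τ = m := hτm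
  rw [hτm'] at this
  exact this

end C048
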