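import Pool.Agent.helper70.KU.Defs

/-!
# Module S1C: closed form of `S1`
-/

set_option autoImplicit false

namespace C048

open Finset

theorem h63_den (τ θ : ℝ) : (Real.exp τ - 1) ^ 2 + 4 * Real.exp τ * Real.sin (θ / 2) ^ 2 =
    Real.exp τ ^ 2 - 2 * Real.exp τ * Real.cos θ + 1 := by
  have hs : Real.sin (θ / 2) ^ 2 = (1 - Real.cos θ) / 2 := by
    have := Real.cos_sq (θ / 2)
    have h7 := Real.sin_sq_add_cos_sq (θ / 2)
    have h8 : 2 * (θ / 2) = θ := by ring
    rw [h8] at this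
    linarith
  rw [hs]
  ring

theorem h63_den_pos {τ : ℝ} (hτ : 0 < τ) (θ : ℝ) :
    0 < (Real.exp τ - 1) ^ 2 + 4 * Real.exp τ * Real.sin (θ / 2) ^ 2 := by
  have h1 : 1 < Real.exp τ := Real.one_lt_exp_iff.2 hτ
  have h2 : 0 < (Real.exp τ - 1) ^ 2 := by
    apply pow_pos
    linarith
  have h3 : 0 ≤ 4 * Real.exp τ * Real.sin (θ / 2) ^ 2 := by positivity
  linarith

theorem h63_geom (N : ℕ) {τ : ℝ} (hτ : 0 < τ) (θ : ℝ) :
    ∑ i ∈ Icc 1 N, Real.exp (-(i * τ)) * Real.cos (i * θ) =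
      ((Real.exp τ * Real.cos θ - 1) * (1 - Real.exp (-(N * τ)) * Real.cos (N * θ)) +
        Real.exp τ * Real.sin θ * (Real.exp (-(N * τ)) * Real.sin (N * θ))) /
        ((Real.exp τ - 1) ^ 2 + 4 * Real.exp τ * Real.sin (θ / 2) ^ 2) := by
  have hd := h63_den_pos hτ θ
  induction N with
  | zero => simp
  | succ N ih =>
    rw [Finset.sum_Icc_succ_top (by omega), ih]
    rw [h63_den] at hd ⊢
    have hX : 0 < Real.exp τ := Real.exp_pos _
    have e1 : Real.exp (-(((N + 1 : ℕ) : ℝ) * τ)) = Real.exp (-(N * τ)) / Real.exp τ := by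
      rw [← Real.exp_sub]
      congr 1
      push_cast
      ring
    have e2 : Real.cos (((N + 1 : ℕ) : ℝ) * θ) =
        Real.cos (N * θ) * Real.cos θ - Real.sin (N * θ) * Real.sin θ := by
      rw [← Real.cos_add]
      congr 1
      push_cast
      ring
    have e3 : Real.sin (((N + 1 : ℕ) : ℝ) * θ) =
        Real.sin (N * θ) * Real.cos θ + Real.cos (N * θ) * Real.sin θ := by
      rw [← Real.sin_add]
      congr 1
      push_cast
      ring
    rw [e1, e2, e3]
    have h9 := Real.sin_sq_add_cos_sq θ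
    generalize Real.exp τ = X at *
    generalize Real.exp (-(N * τ)) = x at *
    generalize Real.cos θ = C at *
    generalize Real.sin θ = S at *
    generalize Real.cos (N * θ) = c at *
    generalize Real.sin (N * θ) = s at *
    rw [eq_div_iff hd.ne', add_mul, div_mul_cancel₀ _ hd.ne']
    field_simp
    linear_combination (-(x * X * c)) * h9

/-- S1C: closed form of `S1` -/
theorem S1_closed (n : ℕ) {τ : ℝ} (hτ : 0 < τ) (θ : ℝ) :
    S1 n τ θ = (1 + Real.exp (-(n * τ)) - 2 * Real.exp (-(2 * n * τ))) / (Real.exp τ - 1)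
      - ((Real.exp τ * Real.cos θ - 1)
            * (1 + Real.exp (-(n * τ)) * Real.cos (n * θ)
                - 2 * Real.exp (-(2 * n * τ)) * Real.cos (2 * n * θ))
          - Real.exp τ * Real.sin θ
            * (Real.exp (-(n * τ)) * Real.sin (n * θ)
                - 2 * Real.exp (-(2 * n * τ)) * Real.sin (2 * n * θ)))
        / ((Real.exp τ - 1) ^ 2 + 4 * Real.exp τ * Real.sin (θ / 2) ^ 2) := by
  have hsum : ∀ f : ℕ → ℝ, ∑ i ∈ Icc 1 n, f i + 2 * ∑ i ∈ Ioc n (2 * n), f i =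
      2 * ∑ i ∈ Icc 1 (2 * n), f i - ∑ i ∈ Icc 1 n, f i := by
    intro f
    have h : ∑ i ∈ Icc 1 (2 * n), f i = ∑ i ∈ Icc 1 n, f i + ∑ i ∈ Ioc n (2 * n), f i := by
      have e1 : Icc 1 (2 * n) = Ioc 0 (2 * n) := by ext; simp [Nat.lt_iff_add_one_le]
      have e2 : Icc 1 n = Ioc 0 n := by ext; simp [Nat.lt_iff_add_one_le]
      rw [e1, e2, Finset.sum_Ioc_consecutive f (by omega) (by omega)]
    rw [h]
    ring
  unfold S1
  rw [hsum]
  have hsub : ∀ N : ℕ, ∑ i ∈ Icc 1 N, Real.exp (-(i * τ)) * (1 - Real.cos (i * θ)) =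
      ∑ i ∈ Icc 1 N, Real.exp (-(i * τ)) * Real.cos (i * 0) -
        ∑ i ∈ Icc 1 N, Real.exp (-(i * τ)) * Real.cos (i * θ) := by
    intro N
    rw [← Finset.sum_sub_distrib]
    refine Finset.sum_congr rfl fun i _ => ?_
    rw [mul_zero, Real.cos_zero]
    ring
  rw [hsub, hsub, h63_geom _ hτ 0, h63_geom _ hτ 0, h63_geom _ hτ θ, h63_geom _ hτ θ]
  have hd := h63_den_pos hτ θ
  have h1 : 1 < Real.exp τ := Real.one_lt_exp_iff.2 hτ
  have h1' : Real.exp τ - 1 ≠ 0 := by
    intro h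
    linarith
  have e4 : ((2 * n : ℕ) : ℝ) = 2 * n := by push_cast; ring
  rw [e4]
  simp only [mul_zero, Real.cos_zero, Real.sin_zero, zero_div]
  generalize (Real.exp τ - 1) ^ 2 + 4 * Real.exp τ * Real.sin (θ / 2) ^ 2 = Dn at *
  field_simp
  ring

theorem h63_cs (p q β : ℝ) : |p * Real.cos β - q * Real.sin β| ≤ Real.sqrt (p ^ 2 + q ^ 2) := by
  apply Real.abs_le_sqrt
  have := Real.sin_sq_add_cos_sq β
  nlinarith [sq_nonneg (p * Real.sin β + q * Real.cos β)]

/-- S1M: modulus bound -/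
theorem S1_mod (n : ℕ) {τ : ℝ} (hτ : 0 < τ) (θ : ℝ) :
    (1 + Real.exp (-(n * τ)) - 2 * Real.exp (-(2 * n * τ))) / (Real.exp τ - 1)
      - (1 + Real.exp (-(n * τ)) + 2 * Real.exp (-(2 * n * τ)))
        / Real.sqrt ((Real.exp τ - 1) ^ 2 + 4 * Real.exp τ * Real.sin (θ / 2) ^ 2)
      ≤ S1 n τ θ := by
  rw [S1_closed n hτ θ]
  have hd := h63_den_pos hτ θ
  have hsq : (Real.exp τ * Real.cos θ - 1) ^ 2 + (Real.exp τ * Real.sin θ) ^ 2 =
      (Real.exp τ - 1) ^ 2 + 4 * Real.exp τ * Real.sin (θ / 2) ^ 2 := by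
    rw [h63_den]
    have := Real.sin_sq_add_cos_sq θ
    linear_combination (Real.exp τ ^ 2) * this
  have c0 := h63_cs (Real.exp τ * Real.cos θ - 1) (Real.exp τ * Real.sin θ) 0
  have c1 := h63_cs (Real.exp τ * Real.cos θ - 1) (Real.exp τ * Real.sin θ) (n * θ)
  have c2 := h63_cs (Real.exp τ * Real.cos θ - 1) (Real.exp τ * Real.sin θ) (2 * n * θ)
  rw [hsq] at c0 c1 c2
  rw [Real.cos_zero, Real.sin_zero] at c0
  have c0' := (abs_le.1 c0).2
  have c1' := (abs_le.1 c1).2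
  have c2' := (abs_le.1 c2).1
  have hx1 : 0 < Real.exp (-(n * τ)) := Real.exp_pos _
  have hx2 : 0 < Real.exp (-(2 * n * τ)) := Real.exp_pos _
  have hrt : 0 < Real.sqrt ((Real.exp τ - 1) ^ 2 + 4 * Real.exp τ * Real.sin (θ / 2) ^ 2) :=
    Real.sqrt_pos.2 hd
  have hdd := Real.mul_self_sqrt hd.le
  generalize (Real.exp τ - 1) ^ 2 + 4 * Real.exp τ * Real.sin (θ / 2) ^ 2 = Dn at *
  have key : ((Real.exp τ * Real.cos θ - 1)
            * (1 + Real.exp (-(n * τ)) * Real.cos (n * θ)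
                - 2 * Real.exp (-(2 * n * τ)) * Real.cos (2 * n * θ))
          - Real.exp τ * Real.sin θ
            * (Real.exp (-(n * τ)) * Real.sin (n * θ)
                - 2 * Real.exp (-(2 * n * τ)) * Real.sin (2 * n * θ))) / Dn ≤
      (1 + Real.exp (-(n * τ)) + 2 * Real.exp (-(2 * n * τ))) / Real.sqrt Dn := by
    rw [div_le_div_iff₀ hd hrt]
    have hn : (Real.exp τ * Real.cos θ - 1)
            * (1 + Real.exp (-(n * τ)) * Real.cos (n * θ)
                - 2 * Real.exp (-(2 * n * τ)) * Real.cos (2 * n * θ))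
          - Real.exp τ * Real.sin θ
            * (Real.exp (-(n * τ)) * Real.sin (n * θ)
                - 2 * Real.exp (-(2 * n * τ)) * Real.sin (2 * n * θ)) ≤
        (1 + Real.exp (-(n * τ)) + 2 * Real.exp (-(2 * n * τ))) * Real.sqrt Dn := by
      nlinarith [mul_le_mul_of_nonneg_left c1' hx1.le, mul_le_mul_of_nonneg_left c2' hx2.le]
    calc _ ≤ ((1 + Real.exp (-(n * τ)) + 2 * Real.exp (-(2 * n * τ))) * Real.sqrt Dn) *
          Real.sqrt Dn := mul_le_mul_of_nonneg_right hn hrt.le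
      _ = _ := by rw [mul_assoc, hdd]
  linarith

/-- S1R: real part bound, for `π/2 ≤ nθ ≤ π` -/
theorem S1_re (n : ℕ) {τ θ : ℝ} (hτ : 0 < τ) (h0 : Real.pi / 2 ≤ n * θ) (h1 : n * θ ≤ Real.pi)
    (h3 : 1 ≤ Real.exp τ * Real.cos θ) :
    (1 + Real.exp (-(n * τ)) - 2 * Real.exp (-(2 * n * τ))) / (Real.exp τ - 1)
      - (1 + 2 * Real.exp (-(2 * n * τ))) * (Real.exp τ * Real.cos θ - 1)
        / ((Real.exp τ - 1) ^ 2 + 4 * Real.exp τ * Real.sin (θ / 2) ^ 2)
      ≤ S1 n τ θ := by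
  rw [S1_closed n hτ θ]
  have hd := h63_den_pos hτ θ
  have hpi := Real.pi_pos
  have hn : 1 ≤ n := by
    rcases Nat.eq_zero_or_pos n with h | h
    · exfalso
      rw [h] at h0
      simp at h0
      linarith
    · exact h
  have hn' : (1 : ℝ) ≤ n := by exact_mod_cast hn
  have hθ : 0 < θ := by
    by_contra hcon
    have : (n : ℝ) * θ ≤ 0 := mul_nonpos_of_nonneg_of_nonpos (by linarith) (not_lt.1 hcon)
    linarith
  have hθ' : θ ≤ Real.pi := by nlinarith
  have hS : 0 ≤ Real.sin θ := Real.sin_nonneg_of_nonneg_of_le_pi hθ.le hθ'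
  have hcos : Real.cos (n * θ) ≤ 0 :=
    Real.cos_nonpos_of_pi_div_two_le_of_le h0 (by linarith)
  have hsin : 0 ≤ Real.sin (n * θ) := Real.sin_nonneg_of_nonneg_of_le_pi (by linarith) h1
  have hcos2 : -1 ≤ Real.cos (2 * n * θ) := Real.neg_one_le_cos _
  have hsin2 : Real.sin (2 * n * θ) ≤ 0 := by
    have e : Real.sin (2 * n * θ) = 2 * Real.sin (n * θ) * Real.cos (n * θ) := by
      rw [← Real.sin_two_mul]
      congr 1
      ring
    rw [e]
    have := mul_nonneg hsin (neg_nonneg.2 hcos)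
    nlinarith
  have hx1 : 0 < Real.exp (-(n * τ)) := Real.exp_pos _
  have hx2 : 0 < Real.exp (-(2 * n * τ)) := Real.exp_pos _
  have hX : 0 < Real.exp τ := Real.exp_pos _
  have key : ((Real.exp τ * Real.cos θ - 1)
            * (1 + Real.exp (-(n * τ)) * Real.cos (n * θ)
                - 2 * Real.exp (-(2 * n * τ)) * Real.cos (2 * n * θ))
          - Real.exp τ * Real.sin θ
            * (Real.exp (-(n * τ)) * Real.sin (n * θ)
                - 2 * Real.exp (-(2 * n * τ)) * Real.sin (2 * n * θ))) ≤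
      (1 + 2 * Real.exp (-(2 * n * τ))) * (Real.exp τ * Real.cos θ - 1) := by
    have hA : 1 + Real.exp (-(n * τ)) * Real.cos (n * θ)
                - 2 * Real.exp (-(2 * n * τ)) * Real.cos (2 * n * θ) ≤
        1 + 2 * Real.exp (-(2 * n * τ)) := by nlinarith
    have hB : 0 ≤ Real.exp (-(n * τ)) * Real.sin (n * θ)
                - 2 * Real.exp (-(2 * n * τ)) * Real.sin (2 * n * θ) := by nlinarith
    have hp : 0 ≤ Real.exp τ * Real.cos θ - 1 := by linarith
    have h5 := mul_le_mul_of_nonneg_left hA hp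
    have h6 : 0 ≤ Real.exp τ * Real.sin θ * (Real.exp (-(n * τ)) * Real.sin (n * θ)
                - 2 * Real.exp (-(2 * n * τ)) * Real.sin (2 * n * θ)) := by positivity
    linarith
  have := div_le_div_of_nonneg_right key hd.le
  linarith

end C048
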